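import Mathlib

namespace Pool.Agent.Results.MP_10d431_nt.Tenth
open Finset Complex Polynomial

/-- The polynomial `S_p` evaluated at `x`. -/
noncomputable def Sp (p : ℕ) (x : ℂ) : ℂ :=
  ∏ k ∈ Icc 1 ((p - 1) / 2), (x - exp (2 * Real.pi * I * (k : ℂ) ^ 2 / p))

/-- The number of quadratic non-residues in `[1, N]`. -/
def np (p : ℕ) [Fact p.Prime] (N : ℕ) : ℕ :=
  ((Icc 1 N).filter fun k : ℕ => legendreSym p k = -1).card

lemma pr {ζ : ℂ} {n : ℕ} (h : IsPrimitiveRoot ζ n) (hn : 0 < n) (y : ℂ) :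
    ∏ i ∈ range n, (y - ζ ^ i) = y ^ n - 1 := by
  have := congrArg (eval y) (X_pow_sub_C_eq_prod h (α := 1) (a := 1) hn (one_pow _))
  simpa [eval_prod] using this.symm

variable {p : ℕ} [hp : Fact p.Prime]

noncomputable def Q (p : ℕ) [Fact p.Prime] (e : ℤ) (x : ℂ) : ℂ :=
  ∏ a ∈ univ.filter fun a : ZMod p => quadraticChar (ZMod p) a = e, (x - ZMod.stdAddChar a)

lemma all {M : Type*} [CommMonoid M] (f : ZMod p → M) : ∏ a, f a = ∏ i ∈ range p, f i := by
  symm
  refine prod_bij (fun i _ => (i : ZMod p)) (by simp) (fun i hi j hj e => ?_)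
    (fun a _ => ⟨a.val, by simp [ZMod.val_lt], by simp⟩) fun _ _ => rfl
  rw [ZMod.natCast_eq_natCast_iff', Nat.mod_eq_of_lt (mem_range.1 hi),
    Nat.mod_eq_of_lt (mem_range.1 hj)] at e
  exact e

lemma half {M : Type*} [CommMonoid M] {h : ℕ} (hh : p = 2 * h + 1) (f : ZMod p → M) :
    ∏ a, f a = (∏ k ∈ Icc 1 h, (f k * f (-k))) * f 0 := by
  have e : ∏ i ∈ range p, f i = ∏ i ∈ range (h + h + 1), f i := by congr 2; omega
  rw [all, e, prod_range_succ', prod_range_add, ← prod_range_reflect (fun i => f (h + i + 1 : ℕ)),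
    ← prod_mul_distrib, ← Finset.Ico_add_one_right_eq_Icc, prod_Ico_eq_prod_range]
  simp only [Nat.add_sub_cancel, Nat.cast_zero]
  congr 1
  refine prod_congr rfl fun i hi => ?_
  rw [add_comm 1 i]
  congr 2
  rw [eq_neg_iff_add_eq_zero, ← Nat.cast_add, ZMod.natCast_eq_zero_iff]
  exact ⟨1, by have := mem_range.1 hi; omega⟩

lemma nz {k : ℕ} (h1 : 1 ≤ k) (h2 : k < p) : (k : ZMod p) ≠ 0 := fun h =>
  absurd (Nat.le_of_dvd h1 ((ZMod.natCast_eq_zero_iff _ _).1 h)) (by omega)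

lemma img {h : ℕ} (hh : p = 2 * h + 1) :
    (univ.filter fun a : ZMod p => quadraticChar (ZMod p) a = 1) =
      (Icc 1 h).image (fun k : ℕ => (k : ZMod p) ^ 2) ∧
    Set.InjOn (fun k : ℕ => (k : ZMod p) ^ 2) (Icc 1 h : Finset ℕ) := by
  refine ⟨Finset.ext fun a => ?_, fun k hk l hl e => ?_⟩
  · simp only [mem_filter, mem_univ, true_and, mem_image, mem_Icc]
    constructor
    · intro ha
      have h0 : a ≠ 0 := by rintro rfl; simp at ha
      obtain ⟨b, rfl⟩ := (quadraticChar_one_iff_isSquare h0).1 ha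
      have hb : b.val ≠ 0 := by rw [ne_eq, ZMod.val_eq_zero]; rintro rfl; simp at h0
      have := ZMod.val_lt b
      by_cases h1 : b.val ≤ h
      · exact ⟨b.val, ⟨by omega, h1⟩, by simp [sq]⟩
      · exact ⟨p - b.val, ⟨by omega, by omega⟩, by rw [Nat.cast_sub this.le]; simp [sq]⟩
    · rintro ⟨k, hk, rfl⟩
      exact quadraticChar_sq_one' (nz hk.1 (by omega))
  · simp only [coe_Icc, Set.mem_Icc] at hk hl
    rcases sq_eq_sq_iff_eq_or_eq_neg.1 e with h1 | h1
    · rwa [ZMod.natCast_eq_natCast_iff', Nat.mod_eq_of_lt (by omega),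
        Nat.mod_eq_of_lt (by omega)] at h1
    · exact absurd (by rw [Nat.cast_add, h1, neg_add_cancel])
        (nz (p := p) (k := k + l) (by omega) (by omega))

lemma psi (k : ℕ) : ZMod.stdAddChar (k : ZMod p) = exp (2 * Real.pi * I * k / p) := by
  simpa using ZMod.stdAddChar_coe (N := p) k

lemma Sp_eq {h : ℕ} (hh : p = 2 * h + 1) (x : ℂ) : Sp p x = Q p 1 x := by
  rw [Q, (img hh).1, prod_image (img hh).2, Sp, show (p - 1) / 2 = h by omega]
  refine prod_congr rfl fun k _ => ?_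
  rw [← Nat.cast_pow (α := ZMod p), psi]; simp

lemma scale (c : ZMod p) (hc : c ≠ 0) (e : ℤ) (y : ℂ) :
    ∏ a ∈ univ.filter fun a : ZMod p => quadraticChar (ZMod p) a = e,
      (y - ZMod.stdAddChar (c * a)) = Q p (quadraticChar (ZMod p) c * e) y := by
  refine prod_equiv (Equiv.mulLeft₀ c hc) (fun a => ?_) fun a _ => rfl
  simp [quadraticChar_eq_zero_iff.not.2 hc, -quadraticChar_apply]

lemma QQ (x : ℂ) : Q p 1 x * Q p (-1) x * (x - 1) = x ^ p - 1 := by
  have h1 : IsPrimitiveRoot (ZMod.stdAddChar (1 : ZMod p)) p := by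
    have := psi (p := p) 1
    rw [Nat.cast_one, Nat.cast_one, mul_one] at this
    rw [this]; exact isPrimitiveRoot_exp p hp.1.ne_zero
  rw [← pr h1 hp.1.pos, Q, Q, prod_filter, prod_filter]
  simp only [← AddChar.map_nsmul_eq_pow, nsmul_one]
  rw [← all fun a => x - ZMod.stdAddChar a, ← prod_mul_distrib, ← mul_prod_erase _ _ (mem_univ 0),
    ← mul_prod_erase _ _ (mem_univ 0), mul_comm]
  simp only [quadraticChar_zero, AddChar.map_zero_eq_one]
  norm_num
  refine Or.inl (prod_congr rfl fun a ha => ?_)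
  rcases quadraticChar_dichotomy (mem_erase.1 ha).1 with h | h <;>
    simp only [quadraticChar_apply] at h <;> simp [h]

lemma chi (h8 : p % 8 = 5) (h5 : p % 5 = 1 ∨ p % 5 = 4) :
    quadraticChar (ZMod p) (-1) = 1 ∧ quadraticChar (ZMod p) 2 = -1 ∧
      quadraticChar (ZMod p) 5 = 1 := by
  refine ⟨(quadraticChar_one_iff_isSquare (by simp)).2 (ZMod.exists_sq_eq_neg_one_iff.2 (by omega)),
    quadraticChar_neg_one_iff_not_isSquare.2 fun h => ?_, ?_⟩
  · have := (ZMod.exists_sq_eq_two_iff (by omega)).1 h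
    omega
  · have : Fact (Nat.Prime 5) := ⟨by norm_num⟩
    have h1 : IsSquare ((5 : ℕ) : ZMod p) := by
      rw [ZMod.exists_sq_eq_prime_iff_of_mod_four_eq_one (p := p) (q := 5) (by omega) (by omega),
        ← ZMod.natCast_mod]
      rcases h5 with h | h <;> rw [h]
      · exact ⟨1, rfl⟩
      · exact ⟨2, rfl⟩
    have h2 := hp.1.two_le
    exact (quadraticChar_one_iff_isSquare (nz (k := 5) (by omega) (by omega))).2 h1

lemma pair {h : ℕ} (hh : p = 2 * h + 1) (h1 : quadraticChar (ZMod p) (-1) = 1) {M : Type*}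
    [CommMonoid M] (f : ZMod p → M) :
    ∏ a ∈ univ.filter fun a : ZMod p => quadraticChar (ZMod p) a = 1, f a =
      ∏ k ∈ (Icc 1 h).filter fun k : ℕ => quadraticChar (ZMod p) k = 1, (f k * f (-k)) := by
  rw [prod_filter, prod_filter, half hh, if_neg (by simp), mul_one]
  refine prod_congr rfl fun k _ => ?_
  rw [← neg_one_mul, map_mul, h1, one_mul]
  split_ifs <;> simp

lemma cardT {T : ℕ} (hT : p = 4 * T + 1) (h1 : quadraticChar (ZMod p) (-1) = 1) :
    #((Icc 1 (2 * T)).filter fun k : ℕ => quadraticChar (ZMod p) k = 1) = T := by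
  have hh : p = 2 * (2 * T) + 1 := by omega
  have := pair hh h1 fun _ => (2 : ℕ)
  rw [prod_const, prod_const, (img hh).1, card_image_of_injOn (img hh).2, ← sq, ← pow_mul,
    Nat.pow_right_inj (by norm_num), Nat.card_Icc] at this
  omega

lemma cosf {T : ℕ} (hT : p = 4 * T + 1) (h1 : quadraticChar (ZMod p) (-1) = 1) (x : ℂ) :
    Q p 1 x = ∏ k ∈ (Icc 1 (2 * T)).filter fun k : ℕ => quadraticChar (ZMod p) k = 1,
      (x ^ 2 - 2 * Real.cos (2 * Real.pi * k / p) * x + 1) := by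
  rw [Q, pair (h := 2 * T) (by omega) h1]
  refine prod_congr rfl fun k _ => ?_
  have e1 := AddChar.map_neg_eq_inv (ZMod.stdAddChar (N := p)) k
  have e2 : exp (2 * Real.pi * I * k / p) = exp ((2 * Real.pi * k / p : ℝ) * I) := by
    congr 1; push_cast; ring
  rw [e1, psi, e2, ← exp_neg, ofReal_cos, two_cos, neg_mul]
  have := exp_ne_zero ((2 * Real.pi * k / p : ℝ) * I)
  rw [exp_neg]
  field_simp
  ring

lemma alg {T t : ℕ} (hT : p = 4 * T + 1) (ht : T % 5 = t) (ht' : t = 0 ∨ t = 2) (h8 : p % 8 = 5)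
    {η : ℂ} (hη : IsPrimitiveRoot η 5) :
    Q p 1 (-η) = (if t = 0 then 1 else -η) * (Q p 1 η * Q p 1 (η ^ 2)) ∧
      (Q p 1 η * Q p 1 (η ^ 2)) ^ 2 = η ^ t ∧ Q p 1 (η ^ 3) = η ^ t * Q p 1 (η ^ 2) := by
  obtain ⟨c1, c2, c5⟩ := chi (p := p) h8 (by omega)
  have h5 := hη.pow_eq_one
  have h0 : η ≠ 0 := hη.ne_zero (by norm_num)
  have n2 : (2 : ZMod p) ≠ 0 := fun h => by simp [h] at c2
  have n5 : (5 : ZMod p) ≠ 0 := fun h => by simp [h] at c5
  have hηT : η ^ T = η ^ t := by rw [← Nat.div_add_mod T 5, ht, pow_add, pow_mul, h5]; simp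
  have f1 : Q p 1 (-η) * Q p 1 η = Q p (-1) (η ^ 2) := by
    have := scale 2 n2 1 (η ^ 2)
    rw [c2, mul_one] at this
    rw [← this, Q, Q, ← prod_mul_distrib, pair (h := 2 * T) (by omega) c1,
      pair (h := 2 * T) (by omega) c1]
    refine prod_congr rfl fun k _ => ?_
    simp only [two_mul, AddChar.map_add_eq_mul]; ring
  have f2 := QQ (p := p) (η ^ 2)
  have f4 : ∀ x y : ℂ, x * y = 1 → Q p 1 y * (x ^ T) ^ 2 = Q p 1 x := fun x y hxy => by
    rw [cosf hT c1, cosf hT c1, ← pow_mul, mul_comm T, pow_mul, ← cardT hT c1, cardT hT c1]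
    nth_rw 2 [← cardT hT c1]
    rw [← prod_const, ← prod_mul_distrib]
    refine prod_congr rfl fun k _ => ?_
    linear_combination (x * y + 1 - 2 * Real.cos (2 * Real.pi * k / p) * x) * hxy
  have f3 : Q p 1 η * Q p 1 (η ^ 2) * Q p 1 (η ^ 3) * Q p 1 (η ^ 4) = 1 := by
    have h1 : Q p 1 1 ≠ 0 := prod_ne_zero_iff.2 fun a ha h => by
      have := ZMod.injective_stdAddChar ((sub_eq_zero.1 h).symm.trans
        (AddChar.map_zero_eq_one _).symm)
      simp [this] at ha
    have := scale 5 n5 1 1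
    rw [c5, mul_one] at this
    refine mul_left_cancel₀ h1 ?_
    rw [mul_one]
    nth_rw 2 [← this]
    simp only [Q, ← prod_mul_distrib]
    refine prod_congr rfl fun a _ => ?_
    have e := pr hη (by norm_num) (ZMod.stdAddChar a)
    have e2 : ZMod.stdAddChar (5 * a) = ZMod.stdAddChar a ^ 5 := by
      rw [← AddChar.map_nsmul_eq_pow]; simp
    simp only [prod_range_succ, range_zero, prod_empty] at e
    rw [e2]
    linear_combination -e
  have g1 := f4 η (η ^ 4) (by rw [← h5]; ring)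
  have g2 := f4 (η ^ 2) (η ^ 3) (by rw [← h5]; ring)
  have n1 : η ^ 2 - 1 ≠ 0 := sub_ne_zero.2 (hη.pow_ne_one_of_pos_of_lt (by norm_num) (by norm_num))
  rw [← pow_mul η 2 T, mul_comm 2 T, pow_mul, hηT] at g2
  rw [hηT] at g1
  have e3 : (η ^ 2) ^ p = (η ^ t) ^ 8 * η ^ 2 := by rw [← hηT, hT]; ring
  rw [e3, ← f1] at f2
  generalize Q p 1 η = a at *
  generalize Q p 1 (η ^ 2) = b at *
  generalize Q p 1 (η ^ 3) = c at *
  generalize Q p 1 (η ^ 4) = d at *
  generalize Q p 1 (-η) = g at *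
  rcases ht' with rfl | rfl
  · simp only [pow_zero, one_pow, mul_one, one_mul, if_true] at *
    have k1 : g * (a * b) = 1 := mul_right_cancel₀ n1 (by linear_combination f2)
    have k2 : (a * b) ^ 2 = 1 := by rw [← f3, g1, g2]; ring
    exact ⟨by linear_combination a * b * k1 - g * k2, k2, g2⟩
  · have k0 : c = η ^ 2 * b := by
      rw [← g2]; linear_combination -c * (η ^ 5 + 1) * h5
    have k3 : d = η * a := by rw [← g1]; linear_combination -d * h5
    have k1 : g * (a * b) = -η ^ 3 := mul_right_cancel₀ n1 (by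
      linear_combination f2 + (η ^ 13 + η ^ 8 + η ^ 3 + 1) * h5)
    have k2 : (a * b) ^ 2 = η ^ 2 := by
      rw [k0, k3] at f3
      linear_combination η ^ 2 * f3 - (a * b) ^ 2 * h5
    refine ⟨mul_right_cancel₀ (pow_ne_zero 2 h0) ?_, k2, k0⟩
    simp only [OfNat.ofNat_ne_zero, if_false]
    linear_combination a * b * k1 - g * k2

lemma five {ζ : ℂ} (h : IsPrimitiveRoot ζ 10) : ζ ^ 5 = -1 ∧ IsPrimitiveRoot (-ζ) 5 := by
  have h1 : ζ ^ 5 = -1 := (h.pow (by norm_num) (show 10 = 5 * 2 by norm_num)).eq_neg_one_of_two_right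
  refine ⟨h1, ?_⟩
  have := (h.pow (by norm_num) (show 10 = 2 * 5 by norm_num)).pow_of_coprime 3 (by norm_num)
  convert this using 1
  linear_combination -ζ * h1

lemma main {T t m : ℕ} (hT : p = 4 * T + 1) (ht : T % 10 = t + 5) (ht' : t = 0 ∨ t = 2)
    (hm : p / 10 = 2 * m) (hm' : legendreSym p (2 * m + 1 : ℕ) = -1) {ζ : ℂ}
    (hζ : IsPrimitiveRoot ζ 10) : Sp p ζ = (-1) ^ np p (2 * m + 1) * ζ ^ t := by
  have h8 : p % 8 = 5 := by omega
  have ht5 : T % 5 = t := by omega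
  rw [Sp_eq (h := 2 * T) (by omega)]
  have step : ∀ ζ : ℂ, IsPrimitiveRoot ζ 10 → Q p 1 ζ = (-1) ^ np p (2 * m + 1) * ζ ^ t →
      Q p 1 (ζ ^ 3) = (-1) ^ np p (2 * m + 1) * (ζ ^ 3) ^ t := fun ζ h e => by
    obtain ⟨h1, h2⟩ := five h
    obtain ⟨a1, -, a3⟩ := alg hT ht5 ht' h8 h2
    obtain ⟨b1, -, -⟩ := alg hT ht5 ht' h8 (h2.pow_of_coprime 3 (by norm_num))
    rw [show ((-ζ) ^ 3) ^ 2 = -ζ by linear_combination ζ * h1, a3,
      show -(-ζ) ^ 3 = ζ ^ 3 by ring] at b1
    rw [neg_neg, e] at a1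
    rw [b1]
    rcases ht' with rfl | rfl
    · simp only [if_true, pow_zero] at *
      linear_combination -a1
    · simp only [OfNat.ofNat_ne_zero, if_false] at *
      linear_combination -ζ ^ 4 * a1
  have hζ0 := isPrimitiveRoot_exp 10 (by norm_num)
  set ζ0 := exp (2 * Real.pi * I / (10 : ℕ)) with hz
  have base : Q p 1 ζ0 = (-1) ^ np p (2 * m + 1) * ζ0 ^ t := by
    obtain ⟨c1, -, -⟩ := chi (p := p) h8 (by omega)
    obtain ⟨h1, h2⟩ := five hζ0
    obtain ⟨a1, a2, -⟩ := alg hT ht5 ht' h8 h2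
    rw [neg_neg] at a1
    have h0 : ζ0 ≠ 0 := exp_ne_zero _
    have e1 : ζ0 ^ 2 + 1 = 2 * Real.cos (2 * Real.pi / 10) * ζ0 := by
      have e2 : ζ0 = exp ((2 * Real.pi / 10 : ℝ) * I) := by rw [hz]; congr 1; push_cast; ring
      rw [ofReal_cos, two_cos, neg_mul, exp_neg, ← e2]
      field_simp
    set ρ : ℝ := ∏ k ∈ (Icc 1 (2 * T)).filter fun k : ℕ => quadraticChar (ZMod p) k = 1,
      (2 * Real.cos (2 * Real.pi / 10) - 2 * Real.cos (2 * Real.pi * k / p)) with hρ
    have e3 : Q p 1 ζ0 = -ζ0 ^ t * ρ := by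
      have : ζ0 ^ T = -ζ0 ^ t := by
        rw [← Nat.div_add_mod T 10, ht, pow_add, pow_mul, hζ0.pow_eq_one, pow_add, h1]; simp
      rw [cosf hT c1, ← this, hρ, ofReal_prod]
      nth_rw 2 [← cardT hT c1]
      rw [← prod_const, ← prod_mul_distrib]
      refine prod_congr rfl fun k _ => ?_
      rw [ofReal_sub, ofReal_mul, ofReal_mul, ofReal_ofNat]
      linear_combination e1
    have e4 : ρ ^ 2 = 1 := by
      have : (ρ : ℂ) ^ 2 = 1 := by
        refine mul_left_cancel₀ (pow_ne_zero 2 (pow_ne_zero t h0)) ?_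
        have e5 : (Q p 1 ζ0) ^ 2 = (ζ0 ^ t) ^ 2 := by
          rw [a1, mul_pow, a2]
          rcases ht' with rfl | rfl <;> simp
          ring
        rw [e3] at e5
        linear_combination e5
      exact_mod_cast this
    have hpos : (0 : ℝ) < p := by exact_mod_cast hp.1.pos
    have hpi := Real.pi_pos
    have e5 : 0 < (-1) ^ #((Icc 1 (2 * m)).filter fun k : ℕ => quadraticChar (ZMod p) k = 1) * ρ := by
      rw [hρ, ← prod_filter_mul_prod_filter_not _ (fun k => k ≤ 2 * m), ← mul_assoc]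
      have e6 : ((Icc 1 (2 * T)).filter fun k : ℕ => quadraticChar (ZMod p) k = 1).filter
          (fun k => k ≤ 2 * m) = (Icc 1 (2 * m)).filter fun k : ℕ => quadraticChar (ZMod p) k = 1 := by
        ext k; simp only [mem_filter, mem_Icc]
        exact ⟨fun h => ⟨⟨h.1.1.1, h.2⟩, h.1.2⟩, fun h => ⟨⟨⟨h.1.1, by omega⟩, h.2⟩, h.1.2⟩⟩
      rw [e6, ← prod_neg]
      refine mul_pos (prod_pos fun k hk => ?_) (prod_pos fun k hk => ?_)
      · simp only [mem_filter, mem_Icc] at hk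
        have : (10 * k : ℝ) < p := by exact_mod_cast (by omega : 10 * k < p)
        have := Real.cos_lt_cos_of_nonneg_of_le_pi (x := 2 * Real.pi * k / p)
          (y := 2 * Real.pi / 10) (by positivity) (by linarith)
          (by rw [div_lt_div_iff₀ hpos (by norm_num)]; nlinarith)
        linarith
      · simp only [mem_filter, mem_Icc] at hk
        have h3 : (p : ℝ) < 10 * k := by exact_mod_cast (by omega : p < 10 * k)
        have h4 : (2 * k : ℝ) ≤ p := by exact_mod_cast (by omega : 2 * k ≤ p)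
        have := Real.cos_lt_cos_of_nonneg_of_le_pi (x := 2 * Real.pi / 10)
          (y := 2 * Real.pi * k / p) (by positivity) (by rw [div_le_iff₀ hpos]; nlinarith)
          (by rw [div_lt_div_iff₀ (by norm_num) hpos]; nlinarith)
        linarith
    have e7 : #((Icc 1 (2 * m)).filter fun k : ℕ => quadraticChar (ZMod p) k = 1) +
        np p (2 * m + 1) = 2 * m + 1 := by
      have e8 := card_filter_add_card_filter_not (s := Icc 1 (2 * m))
        fun k : ℕ => quadraticChar (ZMod p) k = 1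
      rw [np, ← insert_Icc_right_eq_Icc_add_one (by omega), filter_insert, if_pos hm',
        card_insert_of_notMem (by simp), ← add_assoc,
        filter_congr (p := fun k : ℕ => legendreSym p k = -1) (q := fun k : ℕ =>
          ¬ quadraticChar (ZMod p) k = 1), e8, Nat.card_Icc]
      · omega
      · intro k hk
        simp only [mem_Icc] at hk
        simpa [legendreSym] using
          quadraticChar_eq_neg_one_iff_not_one (nz (p := p) hk.1 (by omega))
    rw [e3]
    have e9 : ρ = -(-1) ^ np p (2 * m + 1) := by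
      have e10 : (-1 : ℝ) ^ #((Icc 1 (2 * m)).filter fun k : ℕ => quadraticChar (ZMod p) k = 1) *
          (-1) ^ np p (2 * m + 1) = -1 := by rw [← pow_add, e7, pow_succ, pow_mul]; simp
      rcases neg_one_pow_eq_or ℝ (np p (2 * m + 1)) with h | h <;> rw [h] at e10 ⊢ <;>
        rcases sq_eq_one_iff.1 e4 with h' | h' <;> rw [h'] at e5 ⊢ <;> linarith
    rw [e9]; push_cast; ring
  obtain ⟨i, hi, hc, rfl⟩ := hζ0.isPrimitiveRoot_iff.1 hζ
  have p3 := fun ζ : ℂ => fun h : IsPrimitiveRoot ζ 10 => h.pow_of_coprime 3 (by norm_num)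
  have s3 := step _ hζ0 base
  have s9 := step _ (p3 _ hζ0) s3
  have s7 := step _ (p3 _ (p3 _ hζ0)) s9
  rw [show ((ζ0 ^ 3) ^ 3) ^ 3 = ζ0 ^ 7 by
    linear_combination ζ0 ^ 7 * (ζ0 ^ 10 + 1) * hζ0.pow_eq_one] at s7
  rw [← pow_mul] at s9
  interval_cases i <;> first | exact absurd hc (by decide) | assumption | simpa using base

theorem result (p : ℕ) [Fact p.Prime] (ζ : ℂ) (hζ : IsPrimitiveRoot ζ 10) :
    (p % 40 = 21 → Sp p ζ = (-1) ^ np p ((p + 9) / 10)) ∧
    (p % 40 = 29 → Sp p ζ = (-1) ^ np p ((p + 1) / 10) * ζ ^ 2) := by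
  have key : ∀ k c : ℕ, p % 8 = 5 → (p % 5 = 1 ∨ p % 5 = 4) → (c = 1 ∨ c = 3) → 3 < p →
      10 * k = p + c ^ 2 → legendreSym p k = -1 := fun k c h8 h5 hc h3 e => by
    obtain ⟨-, c2, c5⟩ := chi (p := p) h8 h5
    have h1 : (2 : ZMod p) * 5 * k = (c : ZMod p) ^ 2 := by
      have := congrArg (Nat.cast : ℕ → ZMod p) e
      push_cast at this
      rw [ZMod.natCast_self] at this
      linear_combination this
    have h2 := congrArg (quadraticChar (ZMod p)) h1
    rw [map_mul, map_mul, c2, c5, quadraticChar_sq_one' (nz (by omega) (by omega))] at h2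
    rw [legendreSym, Int.cast_natCast]
    linarith
  constructor <;> intro h
  · have e : (p + 9) / 10 = 2 * (p / 20) + 1 := by omega
    simpa [e] using main (T := p / 4) (t := 0) (m := p / 20) (by omega) (by omega) (Or.inl rfl)
      (by omega) (key _ 3 (by omega) (by omega) (by omega) (by omega) (by omega)) hζ
  · have e : (p + 1) / 10 = 2 * (p / 20) + 1 := by omega
    rw [e]
    exact main (T := p / 4) (t := 2) (m := p / 20) (by omega) (by omega) (Or.inr rfl)
      (by omega) (key _ 1 (by omega) (by omega) (by omega) (by omega) (by omega)) hζ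

end Pool.Agent.Results.MP_10d431_nt.Tenth
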